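import Pool.Agent.Results.MP_a65952_an.OdellNo

set_option autoImplicit false

/-!
The space `X` answering Odell's question has more: in every equivalent renorming the group of
surjective linear isometries is compact in the strong operator topology, and almost isometric
isomorphisms between two spaces isomorphic to `X` cluster, in the weak operator topology, only at
surjective isometries.
-/

open Filter Topology

namespace Pool.Agent.Results.MP_a65952_an.CompactIsometries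

universe u v w t

open Pool.Agent.Helper130.Odell Pool.Agent.Results.MP_a65952_an.OdellNo

section

variable {𝕜 : Type u} [RCLike 𝕜]
variable {Y : Type v} [NormedAddCommGroup Y] [NormedSpace 𝕜 Y]
variable {Z : Type w} [NormedAddCommGroup Z] [NormedSpace 𝕜 Z]

/-- Almost isometric isomorphisms of good spaces converge, along ultrafilters and in the weak
operator topology, to surjective isometries. -/
theorem wot_rigid [CompleteSpace Y] [CompleteSpace Z] (hY : Good 𝕜 Y) (hZ : Good 𝕜 Z)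
    {ι : Type t} (U : Ultrafilter ι) (T : ι → Y ≃L[𝕜] Z)
    (h1 : Tendsto (fun i => ‖(T i : Y →L[𝕜] Z)‖) U (𝓝 1))
    (h2 : Tendsto (fun i => ‖((T i).symm : Z →L[𝕜] Y)‖) U (𝓝 1)) :
    ∃ S : Y ≃ₗᵢ[𝕜] Z, ∀ (y : Y) (φ : Z →L[𝕜] 𝕜),
      Tendsto (fun i => φ (T i y)) U (𝓝 (φ (S y))) := by
  classical
  have e1 : ∀ d, 1 < d → ∀ᶠ i in (U : Filter ι), ‖(T i : Y →L[𝕜] Z)‖ ≤ d := fun d hd =>
    (h1.eventually (gt_mem_nhds hd)).mono fun n hn => hn.le
  have e2 : ∀ d, 1 < d → ∀ᶠ i in (U : Filter ι), ‖((T i).symm : Z →L[𝕜] Y)‖ ≤ d := fun d hd =>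
    (h2.eventually (gt_mem_nhds hd)).mono fun n hn => hn.le
  obtain ⟨i0, hi0, hi0'⟩ := ((e1 2 (by norm_num)).and (e2 2 (by norm_num))).exists
  -- a bounded modification of the family
  let T' : ι → Y ≃L[𝕜] Z := fun i =>
    if ‖(T i : Y →L[𝕜] Z)‖ ≤ 2 ∧ ‖((T i).symm : Z →L[𝕜] Y)‖ ≤ 2 then T i else T i0
  have hT' : ∀ᶠ i in (U : Filter ι), T' i = T i :=
    ((e1 2 (by norm_num)).and (e2 2 (by norm_num))).mono fun i hi => if_pos hi
  have hb1 : ∀ i, ‖(T' i : Y →L[𝕜] Z)‖ ≤ 2 := fun i => by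
    change ‖((if ‖(T i : Y →L[𝕜] Z)‖ ≤ 2 ∧ ‖((T i).symm : Z →L[𝕜] Y)‖ ≤ 2 then T i else T i0 :
      Y ≃L[𝕜] Z) : Y →L[𝕜] Z)‖ ≤ 2
    split_ifs with h
    · exact h.1
    · exact hi0
  have hb2 : ∀ i, ‖((T' i).symm : Z →L[𝕜] Y)‖ ≤ 2 := fun i => by
    change ‖((if ‖(T i : Y →L[𝕜] Z)‖ ≤ 2 ∧ ‖((T i).symm : Z →L[𝕜] Y)‖ ≤ 2 then T i else T i0 :
      Y ≃L[𝕜] Z).symm : Z →L[𝕜] Y)‖ ≤ 2
    split_ifs with h
    · exact h.2
    · exact hi0'
  obtain ⟨S, hS⟩ := exists_wot_lim hZ.refl U (fun n => (T' n : Y →L[𝕜] Z)) 2 hb1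
  obtain ⟨S', hS'⟩ := exists_wot_lim hY.refl U (fun n => ((T' n).symm : Z →L[𝕜] Y)) 2 hb2
  have hSn : ∀ d, 1 < d → Near d S := fun d hd =>
    Near.of_tendsto (l := (U : Filter ι)) hS ((((e1 d hd).and (e2 d hd)).and hT').mono
      fun n hn => by
        rw [hn.2]
        exact Near.of_equiv (T n) hn.1.1 hn.1.2)
  have hSn' : ∀ d, 1 < d → Near d S' := fun d hd =>
    Near.of_tendsto (l := (U : Filter ι)) hS' ((((e1 d hd).and (e2 d hd)).and hT').mono
      fun n hn => by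
        rw [hn.2]
        exact Near.of_equiv (T n).symm hn.1.2 hn.1.1)
  have hcomp : ∀ d, 1 < d → Near d (S'.comp S) := fun d hd => by
    have hd' : 1 < Real.sqrt d := by
      rw [Real.lt_sqrt (by norm_num)]
      simpa using hd
    have h := (hSn' _ hd').comp (hSn _ hd')
    rwa [Real.mul_self_sqrt (by linarith)] at h
  have hcomp' : ∀ d, 1 < d → Near d (S.comp S') := fun d hd => by
    have hd' : 1 < Real.sqrt d := by
      rw [Real.lt_sqrt (by norm_num)]
      simpa using hd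
    have h := (hSn _ hd').comp (hSn' _ hd')
    rwa [Real.mul_self_sqrt (by linarith)] at h
  obtain ⟨a1, a2⟩ := iso_of_near hY _ hcomp
  obtain ⟨b1, b2⟩ := iso_of_near hZ _ hcomp'
  have hS1 : ‖S‖ ≤ 1 := le_of_forall_gt_imp_ge_of_dense fun d hd => (hSn d hd).norm_le
  have hS1' : ‖S'‖ ≤ 1 := le_of_forall_gt_imp_ge_of_dense fun d hd => (hSn' d hd).norm_le
  have hnorm : ∀ y, ‖S y‖ = ‖y‖ := by
    intro y
    refine le_antisymm ?_ ?_
    · have := S.le_of_opNorm_le hS1 y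
      rwa [one_mul] at this
    · have e1 := a1 y
      rw [ContinuousLinearMap.comp_apply] at e1
      have := S'.le_of_opNorm_le hS1' (S y)
      rw [one_mul, e1] at this
      exact this
  have hsurj : Function.Surjective S := fun z => by
    obtain ⟨w, hw⟩ := b2 z
    exact ⟨S' w, hw⟩
  refine ⟨LinearIsometryEquiv.ofSurjective ⟨(S : Y →ₗ[𝕜] Z), hnorm⟩ hsurj, fun y φ => ?_⟩
  change Tendsto (fun i => φ (T i y)) U (𝓝 (φ (S y)))
  refine (hS y φ).congr' (hT'.mono fun i hi => ?_)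
  change φ (T' i y) = φ (T i y)
  rw [hi]

/-- The same for isometries. -/
theorem wot_isom [CompleteSpace Y] [CompleteSpace Z] [Nontrivial Y] (hY : Good 𝕜 Y)
    (hZ : Good 𝕜 Z) {ι : Type t} (U : Ultrafilter ι) (T : ι → Y ≃ₗᵢ[𝕜] Z) :
    ∃ S : Y ≃ₗᵢ[𝕜] Z, ∀ (y : Y) (φ : Z →L[𝕜] 𝕜),
      Tendsto (fun i => φ (T i y)) U (𝓝 (φ (S y))) := by
  obtain ⟨y0, hy0⟩ := exists_ne (0 : Y)
  have hn : ∀ i, ‖(((T i).toContinuousLinearEquiv : Y ≃L[𝕜] Z) : Y →L[𝕜] Z)‖ = 1 := by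
    intro i
    refine le_antisymm (ContinuousLinearMap.opNorm_le_bound _ zero_le_one fun y => ?_) ?_
    · rw [one_mul]
      exact ((T i).norm_map y).le
    · have h := (((T i).toContinuousLinearEquiv : Y ≃L[𝕜] Z) : Y →L[𝕜] Z).le_opNorm y0
      have h' : ‖(((T i).toContinuousLinearEquiv : Y ≃L[𝕜] Z) : Y →L[𝕜] Z) y0‖ = ‖y0‖ :=
        (T i).norm_map y0
      rw [h'] at h
      have hp : 0 < ‖y0‖ := norm_pos_iff.mpr hy0
      nlinarith
  have hn' : ∀ i, ‖(((T i).toContinuousLinearEquiv : Y ≃L[𝕜] Z).symm : Z →L[𝕜] Y)‖ = 1 := by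
    intro i
    refine le_antisymm (ContinuousLinearMap.opNorm_le_bound _ zero_le_one fun y => ?_) ?_
    · rw [one_mul]
      exact ((T i).symm.norm_map y).le
    · have h := (((T i).toContinuousLinearEquiv : Y ≃L[𝕜] Z).symm : Z →L[𝕜] Y).le_opNorm (T i y0)
      have h' : ‖(((T i).toContinuousLinearEquiv : Y ≃L[𝕜] Z).symm : Z →L[𝕜] Y) (T i y0)‖ = ‖y0‖ := by
        change ‖(T i).symm (T i y0)‖ = _
        rw [LinearIsometryEquiv.symm_apply_apply]
      rw [h', (T i).norm_map] at h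
      have hp : 0 < ‖y0‖ := norm_pos_iff.mpr hy0
      nlinarith
  exact wot_rigid hY hZ U (fun i => (T i).toContinuousLinearEquiv) (by simp [hn]) (by simp [hn'])

/-- The weak operator topology on the isometries. -/
def wotTop (𝕜 : Type u) [RCLike 𝕜] (Y : Type v) [NormedAddCommGroup Y] [NormedSpace 𝕜 Y] :
    TopologicalSpace (Y ≃ₗᵢ[𝕜] Y) :=
  TopologicalSpace.induced (fun R (p : Y × (Y →L[𝕜] 𝕜)) => p.2 (R p.1)) inferInstance

/-- Norm convergence of isometries from weak convergence. -/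
theorem sot_of_wot [CompleteSpace Y] [Nontrivial Y] [TopologicalSpace.SeparableSpace Y]
    (hY : Good 𝕜 Y) {ι : Type t} (U : Filter ι) (T : ι → Y ≃ₗᵢ[𝕜] Y) (S : Y ≃ₗᵢ[𝕜] Y)
    (h : ∀ (y : Y) (φ : Y →L[𝕜] 𝕜), Tendsto (fun i => φ (T i y)) U (𝓝 (φ (S y)))) (y : Y) :
    Tendsto (fun i => T i y) U (𝓝 (S y)) := by
  letI : TopologicalSpace (Y ≃ₗᵢ[𝕜] Y) := wotTop 𝕜 Y
  have hind : IsInducing (fun (R : Y ≃ₗᵢ[𝕜] Y) (p : Y × (Y →L[𝕜] 𝕜)) => p.2 (R p.1)) := ⟨rfl⟩
  have hinj : Function.Injective (fun (R : Y ≃ₗᵢ[𝕜] Y) (p : Y × (Y →L[𝕜] 𝕜)) => p.2 (R p.1)) := by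
    intro R R' hRR
    ext x
    rw [SeparatingDual.eq_iff_forall_dual_eq (R := 𝕜)]
    intro φ
    exact congrFun hRR (x, φ)
  haveI : T2Space (Y ≃ₗᵢ[𝕜] Y) := T2Space.of_injective_continuous hinj hind.continuous
  have hcont : ∀ (x : Y) (φ : Y →L[𝕜] 𝕜), Continuous fun R : Y ≃ₗᵢ[𝕜] Y => φ (R x) :=
    fun x φ => (continuous_apply (x, φ)).comp hind.continuous
  haveI : CompactSpace (Y ≃ₗᵢ[𝕜] Y) := by
    refine ⟨isCompact_iff_ultrafilter_le_nhds.mpr fun W _ => ?_⟩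
    obtain ⟨R, hR⟩ := wot_isom hY hY W (fun R => R)
    refine ⟨R, Set.mem_univ _, ?_⟩
    rw [hind.nhds_eq_comap, ← tendsto_iff_comap, tendsto_pi_nhds]
    intro p
    exact hR p.1 p.2
  rw [Metric.tendsto_nhds]
  intro ε hε
  have hclosed : ∀ x : Y, IsClosed {R : Y ≃ₗᵢ[𝕜] Y | ‖R y - x‖ ≤ ε / 3} := by
    intro x
    have e : {R : Y ≃ₗᵢ[𝕜] Y | ‖R y - x‖ ≤ ε / 3} =
        ⋂ φ : {φ : Y →L[𝕜] 𝕜 // ‖φ‖ ≤ 1}, {R : Y ≃ₗᵢ[𝕜] Y | ‖φ.1 (R y) - φ.1 x‖ ≤ ε / 3} := by
      ext R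
      simp only [Set.mem_ofPred_eq, Set.mem_iInter]
      constructor
      · intro hR φ
        rw [← map_sub]
        calc ‖φ.1 (R y - x)‖ ≤ ‖φ.1‖ * ‖R y - x‖ := φ.1.le_opNorm _
          _ ≤ 1 * ‖R y - x‖ := by gcongr; exact φ.2
          _ ≤ ε / 3 := by rw [one_mul]; exact hR
      · intro hR
        obtain ⟨φ, hφ, hφ'⟩ := exists_dual_vector'' 𝕜 (R y - x)
        have h1 := hR ⟨φ, hφ⟩
        rw [← map_sub, hφ'] at h1
        simpa using h1
    rw [e]
    exact isClosed_iInter fun φ => isClosed_le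
      (((hcont y φ.1).sub continuous_const).norm) continuous_const
  obtain ⟨n, hn⟩ := nonempty_interior_of_iUnion_of_closed
    (f := fun n : ℕ => {R : Y ≃ₗᵢ[𝕜] Y | ‖R y - TopologicalSpace.denseSeq Y n‖ ≤ ε / 3})
    (fun n => hclosed _) (by
      refine Set.eq_univ_of_forall fun R => ?_
      obtain ⟨n, hn⟩ := (TopologicalSpace.denseRange_denseSeq Y).exists_dist_lt (R y)
        (show 0 < ε / 3 by positivity)
      refine Set.mem_iUnion.mpr ⟨n, ?_⟩
      rw [dist_eq_norm] at hn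
      exact hn.le)
  obtain ⟨R0, hR0⟩ := hn
  set x := TopologicalSpace.denseSeq Y n with hx
  -- the translates
  have htend : Tendsto (fun i => (T i).trans (S.symm.trans R0)) U (𝓝 R0) := by
    rw [hind.nhds_eq_comap, tendsto_comap_iff, tendsto_pi_nhds]
    rintro ⟨z, φ⟩
    have h1 := h z (φ.comp ((S.symm.trans R0).toContinuousLinearEquiv : Y →L[𝕜] Y))
    have e : (φ.comp ((S.symm.trans R0).toContinuousLinearEquiv : Y →L[𝕜] Y)) (S z) = φ (R0 z) := by
      change φ (R0 (S.symm (S z))) = _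
      rw [LinearIsometryEquiv.symm_apply_apply]
    rw [e] at h1
    exact h1
  have hmem : ∀ᶠ i in U, (T i).trans (S.symm.trans R0) ∈
      {R : Y ≃ₗᵢ[𝕜] Y | ‖R y - x‖ ≤ ε / 3} :=
    htend.eventually (Filter.mem_of_superset (isOpen_interior.mem_nhds hR0) interior_subset)
  filter_upwards [hmem] with i hi
  have h0 : ‖R0 y - x‖ ≤ ε / 3 := (interior_subset hR0 : R0 ∈ {R : Y ≃ₗᵢ[𝕜] Y | _})
  have h2 : ‖(S.symm.trans R0) (T i y) - x‖ ≤ ε / 3 := hi
  have h3 : dist (T i y) (S y) = ‖(S.symm.trans R0) (T i y) - R0 y‖ := by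
    have e : R0 y = (S.symm.trans R0) (S y) := by
      change R0 y = R0 (S.symm (S y))
      rw [LinearIsometryEquiv.symm_apply_apply]
    rw [e, ← map_sub, LinearIsometryEquiv.norm_map, dist_eq_norm]
  rw [h3]
  calc ‖(S.symm.trans R0) (T i y) - R0 y‖
      = ‖((S.symm.trans R0) (T i y) - x) - (R0 y - x)‖ := by congr 1; abel
    _ ≤ ‖(S.symm.trans R0) (T i y) - x‖ + ‖R0 y - x‖ := norm_sub_le _ _
    _ ≤ ε / 3 + ε / 3 := add_le_add h2 h0
    _ < ε := by linarith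

end

/-- **Odell's question, with compact isometry groups.** Over either scalar field there is an
infinite-dimensional separable Banach space `X` such that for all spaces `Y`, `Z` isomorphic to `X`:
(1) if `Y` and `Z` are at Banach–Mazur distance `1`, they are isometric; (2) isomorphisms of `Y` onto
`Z` whose norms and whose inverses' norms tend to `1` converge, along every ultrafilter and in the
weak operator topology, to a linear isometry of `Y` onto `Z`; (3) the set of the linear isometries of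
`Y` onto `Z` is compact in the strong operator topology (the topology of pointwise convergence in
norm). -/
theorem result (𝕜 : Type u) [RCLike 𝕜] :
    ∃ (X : Type u) (_ : NormedAddCommGroup X) (_ : NormedSpace 𝕜 X),
      CompleteSpace X ∧ TopologicalSpace.SeparableSpace X ∧ ¬ FiniteDimensional 𝕜 X ∧
      ∀ (Y : Type v) [NormedAddCommGroup Y] [NormedSpace 𝕜 Y]
        (Z : Type w) [NormedAddCommGroup Z] [NormedSpace 𝕜 Z],
        Nonempty (X ≃L[𝕜] Y) → Nonempty (X ≃L[𝕜] Z) →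
          (bmDist 𝕜 Y Z = 1 → Nonempty (Y ≃ₗᵢ[𝕜] Z)) ∧
          (∀ (ι : Type t) (U : Ultrafilter ι) (T : ι → Y ≃L[𝕜] Z),
            Tendsto (fun i => ‖(T i : Y →L[𝕜] Z)‖) U (𝓝 1) →
            Tendsto (fun i => ‖((T i).symm : Z →L[𝕜] Y)‖) U (𝓝 1) →
            ∃ S : Y ≃ₗᵢ[𝕜] Z, ∀ (y : Y) (φ : Z →L[𝕜] 𝕜),
              Tendsto (fun i => φ (T i y)) U (𝓝 (φ (S y)))) ∧
          IsCompact {f : Y → Z | ∃ S : Y ≃ₗᵢ[𝕜] Z, ∀ y, f y = S y} := by
  refine ⟨TX 𝕜, inferInstance, inferInstance, inferInstance, TX.separable,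
    TX.not_finiteDimensional, ?_⟩
  intro Y _ _ Z _ _ ⟨JY⟩ ⟨JZ⟩
  have hYc : CompleteSpace Y :=
    (JY.symm.isUniformEmbedding.isUniformInducing.completeSpace_congr JY.symm.surjective).mpr
      inferInstance
  have hZc : CompleteSpace Z :=
    (JZ.symm.isUniformEmbedding.isUniformInducing.completeSpace_congr JZ.symm.surjective).mpr
      inferInstance
  have hYn : Nontrivial Y := by
    by_contra hcon
    rw [not_nontrivial_iff_subsingleton] at hcon
    have : FiniteDimensional 𝕜 Y := inferInstance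
    exact TX.not_finiteDimensional (Module.Finite.equiv JY.symm.toLinearEquiv)
  have hYs : TopologicalSpace.SeparableSpace Y := by
    have := TX.separable (𝕜 := 𝕜)
    exact JY.surjective.denseRange.separableSpace JY.continuous
  have hgY : Good 𝕜 Y := TX.good.of_equiv JY
  have hgZ : Good 𝕜 Z := TX.good.of_equiv JZ
  refine ⟨fun hd => ?_, fun ι U T h1 h2 => wot_rigid hgY hgZ U T h1 h2, ?_⟩
  · choose T h1 h2 using fun n : ℕ => exists_scaled (𝕜 := 𝕜) (Y := Y) (Z := Z)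
      ⟨JY.symm.trans JZ⟩ hd (1 / ((n : ℝ) + 1)) (by positivity)
    refine rigid hgY hgZ T (fun n => 1 + 1 / ((n : ℝ) + 1)) ?_ h1 h2
    have := (tendsto_one_div_add_atTop_nhds_zero_nat (𝕜 := ℝ)).const_add 1
    simpa using this
  · classical
    refine isCompact_iff_ultrafilter_le_nhds.mpr fun W hW => ?_
    have hs : {f : Y → Z | ∃ S : Y ≃ₗᵢ[𝕜] Z, ∀ y, f y = S y} ∈ (W : Filter (Y → Z)) :=
      le_principal_iff.mp hW
    obtain ⟨f0, S0, -⟩ := Filter.nonempty_of_mem hs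
    let T : (Y → Z) → Y ≃ₗᵢ[𝕜] Z := fun f =>
      if h : ∃ S : Y ≃ₗᵢ[𝕜] Z, ∀ y, f y = S y then h.choose else S0
    have hT : ∀ᶠ f in (W : Filter (Y → Z)), ∀ y, T f y = f y := by
      filter_upwards [hs] with f hf y
      change (if h : ∃ S : Y ≃ₗᵢ[𝕜] Z, ∀ y, f y = S y then h.choose else S0) y = f y
      rw [dif_pos hf]
      exact (hf.choose_spec y).symm
    obtain ⟨S, hS⟩ := wot_isom hgY hgZ W T
    refine ⟨fun y => S y, ⟨S, fun _ => rfl⟩, ?_⟩
    have hsot := sot_of_wot hgY (W : Filter (Y → Z)) (fun f => (T f).trans S.symm)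
      (LinearIsometryEquiv.refl 𝕜 Y) (fun y φ => by
        have h1 := hS y (φ.comp (S.symm.toContinuousLinearEquiv : Z →L[𝕜] Y))
        have e : (φ.comp (S.symm.toContinuousLinearEquiv : Z →L[𝕜] Y)) (S y) = φ y := by
          change φ (S.symm (S y)) = _
          rw [LinearIsometryEquiv.symm_apply_apply]
        rw [e] at h1
        exact h1)
    have hfin : ∀ y, Tendsto (fun f : Y → Z => f y) (W : Filter (Y → Z)) (𝓝 (S y)) := by
      intro y
      have h1 : Tendsto (fun f => S (((T f).trans S.symm) y)) (W : Filter (Y → Z)) (𝓝 (S y)) :=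
        (S.continuous.tendsto _).comp (hsot y)
      refine h1.congr' (hT.mono fun f hf => ?_)
      change S (S.symm (T f y)) = f y
      rw [LinearIsometryEquiv.apply_symm_apply, hf]
    have : Tendsto (fun f : Y → Z => f) (W : Filter (Y → Z)) (𝓝 fun y => S y) :=
      tendsto_pi_nhds.mpr hfin
    simpa [Filter.Tendsto] using this

end Pool.Agent.Results.MP_a65952_an.CompactIsometries
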